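import Pool.Agent.V5helper44.FZ.Stm2

/-!
# Project FZ, job ONE: one random variable
-/

set_option autoImplicit false

open Finset MeasureTheory Filter Topology

namespace Pool.Agent.V5helper80.FZ

open Pool.Agent.V5helper44.FZ
open Pool.Agent.Results.MP_dd84fd_nt.AsymptoticEveryModulus (Formula formula_of)

lemma norm_ex (y : ℝ) : ‖ex y‖ = 1 := by
  unfold ex
  have h : (2 * (Real.pi : ℂ) * (y : ℂ) * Complex.I) = ((2 * Real.pi * y : ℝ) : ℂ) * Complex.I := by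
    push_cast
    ring
  rw [h, Complex.norm_exp_ofReal_mul_I]

lemma ex_add (x y : ℝ) : ex (x + y) = ex x * ex y := by
  unfold ex
  rw [← Complex.exp_add]
  congr 1
  push_cast
  ring

/-- a shift does not change the decay -/
lemma decay_shift {Ω : Type} [MeasurableSpace Ω] {P : Measure Ω} {X : Ω → ℝ} {N C₀ η : ℝ} (h : Decay P X N C₀ η)
    (c : ℝ) : Decay P (fun ω => X ω - c) N C₀ η := by
  intro θ hθ
  have h1 : ∀ ω, ex (θ * (X ω - c)) = ex (-(θ * c)) * ex (θ * X ω) := by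
    intro ω
    rw [← ex_add]
    congr 1
    ring
  simp only [h1]
  rw [integral_const_mul, norm_mul, norm_ex, one_mul]
  exact h θ hθ

/-- larger constants -/
lemma decay_mono {Ω : Type} [MeasurableSpace Ω] {P : Measure Ω} {X : Ω → ℝ} {N C₀ C₁ η : ℝ} (h : Decay P X N C₀ η)
    (hN : 0 ≤ N) (h1 : C₀ ≤ C₁) : Decay P X N C₁ η := by
  intro θ hθ
  exact (h θ hθ).trans (mul_le_mul_of_nonneg_right h1 (Real.rpow_nonneg (by positivity) _))

/-- the number of digits -/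
lemma exists_digits (B : ℕ) (N : ℝ) (hN : 1 ≤ N) : ∃ k : ℕ, 2 * B * N + 2 ≤ (2 : ℝ) ^ k ∧ (2 : ℝ) ^ k ≤ (4 * B + 8) * N := by
  have hB : (0 : ℝ) ≤ B := Nat.cast_nonneg _
  have hBN : (0 : ℝ) ≤ B * N := by positivity
  have h2 : 2 ≤ ⌈2 * B * N + 2⌉₊ := by
    have h : (2 : ℝ) ≤ ⌈2 * B * N + 2⌉₊ := le_trans (by nlinarith) (Nat.le_ceil _)
    exact_mod_cast h
  refine ⟨Nat.clog 2 ⌈2 * B * N + 2⌉₊, ?_, ?_⟩
  · refine (Nat.le_ceil _).trans ?_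
    exact_mod_cast Nat.le_pow_clog (by norm_num) _
  · have h3 : Nat.clog 2 ⌈2 * B * N + 2⌉₊ ≠ 0 := by
      intro h
      have := Nat.le_pow_clog (b := 2) (by norm_num) ⌈2 * B * N + 2⌉₊
      rw [h] at this
      omega
    obtain ⟨j, hj⟩ := Nat.exists_eq_succ_of_ne_zero h3
    have h4 : 2 ^ j < ⌈2 * B * N + 2⌉₊ := by
      have := Nat.pow_pred_clog_lt_self (b := 2) (by norm_num) (x := ⌈2 * B * N + 2⌉₊) (by omega)
      rw [hj] at this
      exact this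
    rw [hj, pow_succ]
    have h5 : (2 : ℝ) ^ j < ⌈2 * B * N + 2⌉₊ := by exact_mod_cast h4
    have h6 : (⌈2 * B * N + 2⌉₊ : ℝ) < 2 * B * N + 2 + 1 := Nat.ceil_lt_add_one (by nlinarith)
    nlinarith

/-- the rounding is in the class -/
lemma mem_FC (h1 : S_CHI) (h2 : S_PRO) {Ω : Type} [MeasurableSpace Ω] (P : Measure Ω) [IsProbabilityMeasure P]
    (X : Ω → ℝ) (hX : Measurable X) (N C₀ η C₁ η₁ G : ℝ) (hN : 0 < N) (hC₀ : 0 ≤ C₀) (hη : 0 < η) (hη₁ : 0 < η₁)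
    (hηη : η₁ ≤ η) (hG : 1 ≤ G) (hC₁ : 0 < C₁) (k : ℕ) (hk : (2 : ℝ) ^ k ≤ G * N)
    (hXb : ∀ ω, 0 ≤ X ω ∧ X ω ≤ ((2 ^ k - 1 : ℕ) : ℝ)) (hD : Decay P X N C₀ η)
    (hcon : ∀ a r : ℝ, 0 < r → P.real {ω | |X ω - a| ≤ r} ≤ C₁ * (r / N) ^ η₁) :
    FC (C₀ * G ^ η + 1 + C₁ * (2 * G) ^ η₁) η₁ k (pr P X) := by
  have hM : 2 ^ k - 1 + 1 = 2 ^ k := Nat.sub_add_cancel Nat.one_le_two_pow
  obtain ⟨ha, hb, hc, -⟩ := h2 Ω P X hX (2 ^ k - 1) hXb
  rw [hM] at hb hc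
  have hG0 : 0 < G := by linarith
  have hk0 : (0 : ℝ) < 2 ^ k := by positivity
  have hkN : (2 : ℝ) ^ k / G ≤ N := by
    rw [div_le_iff₀ hG0]
    linarith
  have e1 : 0 ≤ C₀ * G ^ η := mul_nonneg hC₀ (Real.rpow_nonneg hG0.le _)
  have e2 : 0 ≤ C₁ * (2 * G) ^ η₁ := mul_nonneg hC₁.le (Real.rpow_nonneg (by positivity) _)
  refine ⟨ha, hb, ?_, ?_⟩
  · intro θ δ hδ hq
    have hpos : 0 < δ * 2 ^ k := by positivity
    have hpos1 : 0 ≤ (δ * 2 ^ k) ^ (-η₁) := Real.rpow_nonneg hpos.le _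
    rcases le_or_gt 1 (δ * 2 ^ k) with h3 | h3
    · have h4 := h1 Ω P X hX (2 ^ k - 1) N C₀ η hN hC₀ hη hXb hD θ δ hδ hq
      rw [hM] at h4
      have h5 : (δ * N) ^ (-η) ≤ G ^ η * (δ * 2 ^ k) ^ (-η₁) := by
        calc (δ * N) ^ (-η) ≤ (δ * (2 ^ k / G)) ^ (-η) := by
              apply Real.rpow_le_rpow_of_nonpos (by positivity) _ (by linarith)
              exact mul_le_mul_of_nonneg_left hkN hδ.le
          _ = (δ * 2 ^ k / G) ^ (-η) := by rw [mul_div_assoc]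
          _ = G ^ η * (δ * 2 ^ k) ^ (-η) := by
              rw [Real.div_rpow hpos.le hG0.le, Real.rpow_neg hG0.le, div_inv_eq_mul]
              ring
          _ ≤ G ^ η * (δ * 2 ^ k) ^ (-η₁) := by
              apply mul_le_mul_of_nonneg_left _ (Real.rpow_nonneg hG0.le _)
              exact Real.rpow_le_rpow_of_exponent_le h3 (by linarith)
      calc _ ≤ C₀ * (δ * N) ^ (-η) := h4
        _ ≤ C₀ * (G ^ η * (δ * 2 ^ k) ^ (-η₁)) := mul_le_mul_of_nonneg_left h5 hC₀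
        _ = (C₀ * G ^ η) * (δ * 2 ^ k) ^ (-η₁) := by ring
        _ ≤ _ := mul_le_mul_of_nonneg_right (by linarith) hpos1
    · have h4 : ‖∑ v ∈ range (2 ^ k), ((pr P X v : ℝ) : ℂ) * ex (θ * v)‖ ≤ 1 := by
        refine (norm_sum_le _ _).trans ?_
        rw [← hb]
        apply sum_le_sum
        intro v _
        rw [norm_mul, norm_ex, mul_one, Complex.norm_real, Real.norm_of_nonneg (ha v)]
      have h5 : 1 ≤ (δ * 2 ^ k) ^ (-η₁) := Real.one_le_rpow_of_pos_of_le_one_of_nonpos hpos h3.le (by linarith)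
      calc _ ≤ (1 : ℝ) := h4
        _ ≤ 1 * (δ * 2 ^ k) ^ (-η₁) := by linarith
        _ ≤ _ := mul_le_mul_of_nonneg_right (by linarith) hpos1
  · intro a r hr
    have h3 := hc a r
    have h4 := hcon a (r + 1) (by linarith)
    have h5 : ((r + 1) / N) ^ η₁ ≤ (2 * G) ^ η₁ * (r / 2 ^ k) ^ η₁ := by
      rw [← Real.mul_rpow (by positivity) (by positivity)]
      apply Real.rpow_le_rpow (by positivity) _ hη₁.le
      rw [div_le_iff₀ hN]
      have h6 : r / 2 ^ k * (G * N) ≥ r := by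
        rw [ge_iff_le, div_mul_eq_mul_div, le_div_iff₀ hk0]
        exact mul_le_mul_of_nonneg_left hk (by linarith)
      calc r + 1 ≤ 2 * r := by linarith
        _ ≤ 2 * (r / 2 ^ k * (G * N)) := by linarith
        _ = _ := by ring
    have h7 : 0 ≤ (r / 2 ^ k) ^ η₁ := Real.rpow_nonneg (by positivity) _
    calc _ ≤ P.real {ω | |X ω - a| ≤ r + 1} := h3
      _ ≤ C₁ * ((r + 1) / N) ^ η₁ := h4
      _ ≤ C₁ * ((2 * G) ^ η₁ * (r / 2 ^ k) ^ η₁) := mul_le_mul_of_nonneg_left h5 hC₁.le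
      _ = (C₁ * (2 * G) ^ η₁) * (r / 2 ^ k) ^ η₁ := by ring
      _ ≤ _ := mul_le_mul_of_nonneg_right (by linarith) h7

theorem t_ONE (h1 : S_CHI) (h2 : S_PRO) (h3 : S_CON) (h4 : S_CLS) : S_ONE := by
  classical
  intro B C₀ η ε A W U hB hη hε
  obtain ⟨C₁, η₁, hC₁, hη₁, hηη, hcon⟩ := h3 (max C₀ 0) η hη
  obtain ⟨G, hG⟩ : ∃ G : ℝ, G = 4 * B + 8 := ⟨_, rfl⟩
  have hB1 : (1 : ℝ) ≤ B := by exact_mod_cast hB
  have hG1 : 1 ≤ G := by rw [hG]; linarith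
  have hG0 : 0 < G := by linarith
  have hCpos : 0 < max C₀ 0 * G ^ η + 1 + C₁ * (2 * G) ^ η₁ := by
    have e1 : 0 ≤ max C₀ 0 * G ^ η := mul_nonneg (le_max_right _ _) (Real.rpow_nonneg hG0.le _)
    have e2 : 0 ≤ C₁ * (2 * G) ^ η₁ := mul_nonneg hC₁.le (Real.rpow_nonneg (by positivity) _)
    linarith
  have hcls := h4 _ η₁ hCpos hη₁
  obtain ⟨m₀, hm₀⟩ := formula_of ε A
  obtain ⟨Q, hQ⟩ : ∃ Q : ℤ → Prop, Q = fun y => ¬ (0 < y ∧ Even y ∧ ¬ Formula ε A y.toNat) := ⟨_, rfl⟩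
  obtain ⟨k₀, hk₀⟩ := Pool.Agent.N625.DY.cls_gold hcls (B + 2) A (W + 1) (U + 1) m₀ ε hε (Formula ε A) hm₀ Q
    (fun y hy => by
      rw [hQ] at hy
      exact not_not.1 hy)
  refine ⟨2 ^ (k₀ + 2), ?_⟩
  intro Ω _ P _ X hX N hN hXN hDec
  have hpow : (4 : ℝ) ≤ 2 ^ (k₀ + 2) := by
    have : (1 : ℝ) ≤ 2 ^ k₀ := one_le_pow₀ (by norm_num)
    rw [pow_add]
    linarith
  have hN4 : 4 ≤ N := hpow.trans hN
  have hN0 : 0 < N := by linarith
  obtain ⟨k, hk1, hk2⟩ := exists_digits B N (by linarith)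
  rw [← hG] at hk2
  have hNk : N ≤ 2 ^ k := by nlinarith
  have hkk : k₀ + 2 ≤ k := by
    have h5 : (2 : ℝ) ^ (k₀ + 2) ≤ 2 ^ k := hN.trans hNk
    exact (pow_le_pow_iff_right₀ (by norm_num : (1 : ℝ) < 2)).1 h5
  have hk2' : (2 : ℝ) ≤ k := by exact_mod_cast (by omega : 2 ≤ k)
  have hlog : Real.log N ≤ k := by
    have h5 : Real.log N ≤ Real.log (2 ^ k) := Real.log_le_log hN0 hNk
    rw [Real.log_pow] at h5
    have h6 : Real.log 2 ≤ 1 := by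
      have := Real.log_two_lt_d9
      linarith
    have h7 : (0 : ℝ) ≤ k := by linarith
    nlinarith
  have hlog0 : 1 ≤ Real.log N := by
    rw [Real.le_log_iff_exp_le hN0]
    have := Real.exp_one_lt_d9
    linarith
  -- the shifted variable
  obtain ⟨c, hc⟩ : ∃ c : ℤ, c = -⌈(B : ℝ) * N⌉ := ⟨_, rfl⟩
  have hc1 : (B : ℝ) * N ≤ -(c : ℝ) := by
    rw [hc]
    push_cast
    rw [neg_neg]
    exact Int.le_ceil _
  have hc2 : -(c : ℝ) < B * N + 1 := by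
    rw [hc]
    push_cast
    rw [neg_neg]
    exact Int.ceil_lt_add_one _
  have hX' : Measurable fun ω => X ω - (c : ℝ) := hX.sub_const _
  have hcast : ((2 ^ k - 1 : ℕ) : ℝ) = 2 ^ k - 1 := by
    rw [Nat.cast_sub Nat.one_le_two_pow]
    push_cast
    ring
  have hXb : ∀ ω, 0 ≤ X ω - (c : ℝ) ∧ X ω - (c : ℝ) ≤ ((2 ^ k - 1 : ℕ) : ℝ) := by
    intro ω
    have h5 := abs_le.1 (hXN ω)
    rw [hcast]
    constructor
    · linarith [h5.1]
    · nlinarith [h5.2]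
  have hDm := decay_mono hDec hN0.le (le_max_left C₀ 0)
  have hcon' : ∀ a r : ℝ, 0 < r → P.real {ω | |X ω - (c : ℝ) - a| ≤ r} ≤ C₁ * (r / N) ^ η₁ := by
    intro a r hr
    have h5 := hcon Ω P X hX N hN0 hDm (c + a) r hr
    have h6 : {ω | |X ω - (c : ℝ) - a| ≤ r} = {ω | |X ω - ((c : ℝ) + a)| ≤ r} := by
      ext ω
      simp only [Set.mem_ofPred_eq, sub_sub]
    rw [h6]
    exact h5
  have hFC := mem_FC h1 h2 P (fun ω => X ω - (c : ℝ)) hX' N (max C₀ 0) η C₁ η₁ G hN0 (le_max_right _ _) hη hη₁ hηη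
    hG1 hC₁ k hk2 hXb (decay_shift hDm c) hcon'
  have hcabs : |c| ≤ ((B + 2 : ℕ) : ℤ) * ((2 : ℕ) : ℤ) ^ k := by
    have h5 : ((|c| : ℤ) : ℝ) ≤ ((((B + 2 : ℕ) : ℤ) * ((2 : ℕ) : ℤ) ^ k : ℤ) : ℝ) := by
      push_cast
      rw [abs_of_nonpos (by nlinarith)]
      nlinarith
    exact_mod_cast h5
  have hmain := hk₀ k (by omega) _ hFC c hcabs
  -- the last point of PRO
  obtain ⟨-, -, -, hlast⟩ := h2 Ω P (fun ω => X ω - (c : ℝ)) hX' (2 ^ k - 1) hXb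
  have hM : 2 ^ k - 1 + 1 = 2 ^ k := Nat.sub_add_cancel Nat.one_le_two_pow
  rw [hM] at hlast
  have h5 := hlast {v : ℕ | ¬ ∀ y : ℤ, |y - (c + 1 * (v : ℕ))| ≤ (k : ℤ) ^ (W + 1) → Q y}
    {ω | ∃ m ∈ Exc ε A, |(m : ℝ) - X ω| ≤ Real.log N ^ W} (by
      rintro ω ⟨m, ⟨hm0, hm1, hm2⟩, hm3⟩ v hv
      rw [Set.mem_ofPred_eq]
      intro hall
      have h6 : |(m : ℤ) - (c + 1 * (v : ℕ))| ≤ (k : ℤ) ^ (W + 1) := by
        have h7 : ((|(m : ℤ) - (c + 1 * (v : ℕ))| : ℤ) : ℝ) ≤ (((k : ℤ) ^ (W + 1) : ℤ) : ℝ) := by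
          push_cast
          have h8 : (m : ℝ) - (c + 1 * v) = (m - X ω) + (X ω - c - v) := by ring
          rw [h8]
          refine (abs_add_le _ _).trans ?_
          have h9 : Real.log N ^ W ≤ (k : ℝ) ^ W := pow_le_pow_left₀ (by linarith) hlog W
          have h10 : (1 : ℝ) ≤ (k : ℝ) ^ W := one_le_pow₀ (by linarith)
          rw [pow_succ]
          nlinarith
        exact_mod_cast h7
      have h7 := hall m h6
      rw [hQ] at h7
      exact h7 ⟨by exact_mod_cast hm0, by exact_mod_cast hm1, by rwa [Int.toNat_natCast]⟩)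
  have h6 : ∑ v ∈ (range (2 ^ k)).filter (fun v => v ∈ {v : ℕ | ¬ ∀ y : ℤ, |y - (c + 1 * (v : ℕ))| ≤ (k : ℤ) ^ (W + 1) →
      Q y}), pr P (fun ω => X ω - (c : ℝ)) v ≤ 1 / (k : ℝ) ^ (U + 1) := by
    refine le_trans (le_of_eq ?_) hmain
    rw [sum_filter]
    apply sum_congr rfl
    intro v _
    by_cases hv : ∀ y : ℤ, |y - (c + 1 * (v : ℕ))| ≤ (k : ℤ) ^ (W + 1) → Q y
    · rw [if_pos hv, if_neg (by rw [Set.mem_ofPred_eq]; exact not_not.2 hv)]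
    · rw [if_neg hv, if_pos (by rw [Set.mem_ofPred_eq]; exact hv)]
  have h7 : 2 * (1 / (k : ℝ) ^ (U + 1)) ≤ 1 / Real.log N ^ U := by
    rw [mul_one_div, div_le_div_iff₀ (by positivity) (by positivity), one_mul, pow_succ]
    have h9 : Real.log N ^ U ≤ (k : ℝ) ^ U := pow_le_pow_left₀ (by linarith) hlog U
    have h10 : (0 : ℝ) ≤ (k : ℝ) ^ U := by positivity
    nlinarith
  refine h5.trans ((mul_le_mul_of_nonneg_left ?_ (by norm_num)).trans h7)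
  refine le_trans (le_of_eq ?_) h6
  apply sum_congr _ (fun _ _ => rfl)
  ext v
  simp only [mem_filter]

end Pool.Agent.V5helper80.FZ
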