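import Pool.Agent.V5helper44.FZ.Stm3
import Pool.Agent.V5helper80.FZ.ONE

/-!
# Project FZ, job ONE2: one random variable, for a general property
-/

set_option autoImplicit false

open Finset MeasureTheory Filter Topology

namespace Pool.Agent.V5helper80.FZ

open Pool.Agent.V5helper44.FZ

theorem t_ONE2 (h1 : S_CHI) (h2 : S_PRO) (h3 : S_CON) (h4 : S_CLS) : S_ONE2 := by
  classical
  intro B C₀ η ε A W U m₀ R hB hη hε hm₀
  obtain ⟨C₁, η₁, hC₁, hη₁, hηη, hcon⟩ := h3 (max C₀ 0) η hη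
  obtain ⟨G, hG⟩ : ∃ G : ℝ, G = 4 * B + 8 := ⟨_, rfl⟩
  have hB1 : (1 : ℝ) ≤ B := by exact_mod_cast hB
  have hG1 : 1 ≤ G := by rw [hG]; linarith
  have hG0 : 0 < G := by linarith
  have hCpos : 0 < max C₀ 0 * G ^ η + 1 + C₁ * (2 * G) ^ η₁ := by
    have e1 : 0 ≤ max C₀ 0 * G ^ η := mul_nonneg (le_max_right _ _) (Real.rpow_nonneg hG0.le _)
    have e2 : 0 ≤ C₁ * (2 * G) ^ η₁ := mul_nonneg hC₁.le (Real.rpow_nonneg (by positivity) _)
    linarith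
  have hcls := h4 _ η₁ hCpos hη₁
  obtain ⟨Q, hQ⟩ : ∃ Q : ℤ → Prop, Q = fun y => ¬ (0 < y ∧ Even y ∧ ¬ R y.toNat) := ⟨_, rfl⟩
  obtain ⟨k₀, hk₀⟩ := Pool.Agent.N625.DY.cls_gold hcls (B + 2) A (W + 1) (U + 1) m₀ ε hε R hm₀ Q
    (fun y hy => by
      rw [hQ] at hy
      exact not_not.1 hy)
  refine ⟨2 ^ (k₀ + 2), ?_⟩
  intro Ω _ P _ X hX N hN hXN hDec
  have hpow : (4 : ℝ) ≤ 2 ^ (k₀ + 2) := by
    have : (1 : ℝ) ≤ 2 ^ k₀ := one_le_pow₀ (by norm_num)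
    rw [pow_add]
    linarith
  have hN4 : 4 ≤ N := hpow.trans hN
  have hN0 : 0 < N := by linarith
  obtain ⟨k, hk1, hk2⟩ := exists_digits B N (by linarith)
  rw [← hG] at hk2
  have hNk : N ≤ 2 ^ k := by nlinarith
  have hkk : k₀ + 2 ≤ k := by
    have h5 : (2 : ℝ) ^ (k₀ + 2) ≤ 2 ^ k := hN.trans hNk
    exact (pow_le_pow_iff_right₀ (by norm_num : (1 : ℝ) < 2)).1 h5
  have hk2' : (2 : ℝ) ≤ k := by exact_mod_cast (by omega : 2 ≤ k)
  have hlog : Real.log N ≤ k := by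
    have h5 : Real.log N ≤ Real.log (2 ^ k) := Real.log_le_log hN0 hNk
    rw [Real.log_pow] at h5
    have h6 : Real.log 2 ≤ 1 := by
      have := Real.log_two_lt_d9
      linarith
    have h7 : (0 : ℝ) ≤ k := by linarith
    nlinarith
  have hlog0 : 1 ≤ Real.log N := by
    rw [Real.le_log_iff_exp_le hN0]
    have := Real.exp_one_lt_d9
    linarith
  -- the shifted variable
  obtain ⟨c, hc⟩ : ∃ c : ℤ, c = -⌈(B : ℝ) * N⌉ := ⟨_, rfl⟩
  have hc1 : (B : ℝ) * N ≤ -(c : ℝ) := by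
    rw [hc]
    push_cast
    rw [neg_neg]
    exact Int.le_ceil _
  have hc2 : -(c : ℝ) < B * N + 1 := by
    rw [hc]
    push_cast
    rw [neg_neg]
    exact Int.ceil_lt_add_one _
  have hX' : Measurable fun ω => X ω - (c : ℝ) := hX.sub_const _
  have hcast : ((2 ^ k - 1 : ℕ) : ℝ) = 2 ^ k - 1 := by
    rw [Nat.cast_sub Nat.one_le_two_pow]
    push_cast
    ring
  have hXb : ∀ ω, 0 ≤ X ω - (c : ℝ) ∧ X ω - (c : ℝ) ≤ ((2 ^ k - 1 : ℕ) : ℝ) := by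
    intro ω
    have h5 := abs_le.1 (hXN ω)
    rw [hcast]
    constructor
    · linarith [h5.1]
    · nlinarith [h5.2]
  have hDm := decay_mono hDec hN0.le (le_max_left C₀ 0)
  have hcon' : ∀ a r : ℝ, 0 < r → P.real {ω | |X ω - (c : ℝ) - a| ≤ r} ≤ C₁ * (r / N) ^ η₁ := by
    intro a r hr
    have h5 := hcon Ω P X hX N hN0 hDm (c + a) r hr
    have h6 : {ω | |X ω - (c : ℝ) - a| ≤ r} = {ω | |X ω - ((c : ℝ) + a)| ≤ r} := by
      ext ω
      simp only [Set.mem_ofPred_eq, sub_sub]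
    rw [h6]
    exact h5
  have hFC := mem_FC h1 h2 P (fun ω => X ω - (c : ℝ)) hX' N (max C₀ 0) η C₁ η₁ G hN0 (le_max_right _ _) hη hη₁ hηη
    hG1 hC₁ k hk2 hXb (decay_shift hDm c) hcon'
  have hcabs : |c| ≤ ((B + 2 : ℕ) : ℤ) * ((2 : ℕ) : ℤ) ^ k := by
    have h5 : ((|c| : ℤ) : ℝ) ≤ ((((B + 2 : ℕ) : ℤ) * ((2 : ℕ) : ℤ) ^ k : ℤ) : ℝ) := by
      push_cast
      rw [abs_of_nonpos (by nlinarith)]
      nlinarith
    exact_mod_cast h5
  have hmain := hk₀ k (by omega) _ hFC c hcabs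
  -- the last point of PRO
  obtain ⟨-, -, -, hlast⟩ := h2 Ω P (fun ω => X ω - (c : ℝ)) hX' (2 ^ k - 1) hXb
  have hM : 2 ^ k - 1 + 1 = 2 ^ k := Nat.sub_add_cancel Nat.one_le_two_pow
  rw [hM] at hlast
  have h5 := hlast {v : ℕ | ¬ ∀ y : ℤ, |y - (c + 1 * (v : ℕ))| ≤ (k : ℤ) ^ (W + 1) → Q y}
    {ω | ∃ m : ℕ, 0 < m ∧ Even m ∧ ¬ R m ∧ |(m : ℝ) - X ω| ≤ Real.log N ^ W} (by
      rintro ω ⟨m, hm0, hm1, hm2, hm3⟩ v hv
      rw [Set.mem_ofPred_eq]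
      intro hall
      have h6 : |(m : ℤ) - (c + 1 * (v : ℕ))| ≤ (k : ℤ) ^ (W + 1) := by
        have h7 : ((|(m : ℤ) - (c + 1 * (v : ℕ))| : ℤ) : ℝ) ≤ (((k : ℤ) ^ (W + 1) : ℤ) : ℝ) := by
          push_cast
          have h8 : (m : ℝ) - (c + 1 * v) = (m - X ω) + (X ω - c - v) := by ring
          rw [h8]
          refine (abs_add_le _ _).trans ?_
          have h9 : Real.log N ^ W ≤ (k : ℝ) ^ W := pow_le_pow_left₀ (by linarith) hlog W
          have h10 : (1 : ℝ) ≤ (k : ℝ) ^ W := one_le_pow₀ (by linarith)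
          rw [pow_succ]
          nlinarith
        exact_mod_cast h7
      have h7 := hall m h6
      rw [hQ] at h7
      exact h7 ⟨by exact_mod_cast hm0, by exact_mod_cast hm1, by rwa [Int.toNat_natCast]⟩)
  have h6 : ∑ v ∈ (range (2 ^ k)).filter (fun v => v ∈ {v : ℕ | ¬ ∀ y : ℤ, |y - (c + 1 * (v : ℕ))| ≤ (k : ℤ) ^ (W + 1) →
      Q y}), pr P (fun ω => X ω - (c : ℝ)) v ≤ 1 / (k : ℝ) ^ (U + 1) := by
    refine le_trans (le_of_eq ?_) hmain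
    rw [sum_filter]
    apply sum_congr rfl
    intro v _
    by_cases hv : ∀ y : ℤ, |y - (c + 1 * (v : ℕ))| ≤ (k : ℤ) ^ (W + 1) → Q y
    · rw [if_pos hv, if_neg (by rw [Set.mem_ofPred_eq]; exact not_not.2 hv)]
    · rw [if_neg hv, if_pos (by rw [Set.mem_ofPred_eq]; exact hv)]
  have h7 : 2 * (1 / (k : ℝ) ^ (U + 1)) ≤ 1 / Real.log N ^ U := by
    rw [mul_one_div, div_le_div_iff₀ (by positivity) (by positivity), one_mul, pow_succ]
    have h9 : Real.log N ^ U ≤ (k : ℝ) ^ U := pow_le_pow_left₀ (by linarith) hlog U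
    have h10 : (0 : ℝ) ≤ (k : ℝ) ^ U := by positivity
    nlinarith
  refine h5.trans ((mul_le_mul_of_nonneg_left ?_ (by norm_num)).trans h7)
  refine le_trans (le_of_eq ?_) h6
  apply sum_congr _ (fun _ _ => rfl)
  ext v
  simp only [mem_filter]

end Pool.Agent.V5helper80.FZ
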